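import Pool.Agent.Helper74.UB.Goals4

/-!
# UB-ENDT: the final inequality for two routes
-/

namespace Pool.Agent.Helper61.UB

open Finset Equiv Helper28.VF Helper74.UB
open scoped Classical

/-- **ENDT.** -/
theorem endt (h1 : StmtFine) (h2 : StmtCrude) (h3 : StmtTot) (h4 : StmtTime) (h5 : StmtW)
    (h6 : StmtBaseF) : StmtEndT := by
  intro K h V D E F E' F' _ _ _ _ _ _ L f M dE dW dU dN I M' y0 y1 c v₀ A Q X T R₁ R₂ hS hy0 hy1 hT
  have hB := hS.base
  obtain ⟨-, hinl, ⟨hsm, hlk⟩, -, -, ⟨htp, hbt⟩, -, -, -⟩ :=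
    h6 K h V D E F E' F' L f M dE dW dU dN I M' y0 y1 c v₀ A Q hB
  -- no harmful time
  have hno : ∀ s, s < T → ¬ Harm R₁ R₂ s := by
    intro s
    induction s using Nat.strong_induction_on with
    | _ s ih =>
      intro hs
      have ih' : ∀ r < s, ¬ Harm R₁ R₂ r := fun r hr => ih r hr (lt_trans hr hs)
      by_cases hc : 2 ≤ bt L.row y1 (A s) ∧ tp L.row y0 (A s) + 2 ≤ h
      · exact h1 K h V D E F E' F' L f M dE dW dU dN I M' y0 y1 c v₀ A Q X T R₁ R₂ hS s hs ih'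
          hc.1 hc.2
      · refine h2 K h V D E F E' F' L f M dE dW dU dN I M' y0 y1 c v₀ A Q X T R₁ R₂ hS hy0 hy1 s hs
          ih' ?_
        by_contra hcon
        push Not at hcon
        exact hc ⟨by omega, by omega⟩
  -- total number of events
  have hbd : ∀ O, IsComp M' (Q T) O → (bd M' O).card ≤ 4 + 3 * O.card := by
    intro O hO
    have hP : Pairs M' O (∅ : Finset (VC V I × VC V I)) :=
      ⟨fun p hp => absurd hp (Finset.notMem_empty p), fun p hp => absurd hp (Finset.notMem_empty p)⟩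
    have := h5 (DC M I) (VC V I) E' F' M' hsm O ∅ (fun v hv => by
      obtain ⟨w, rfl⟩ := hinl T v (hO.sub hv)
      exact hlk w) hO.conn hO.ne hP
    simpa using this
  have htot := (h3 (DC M I) (VC V I) E' F' M' c v₀ A Q hB.fire T X hS.col R₁ R₂ hS.far T le_rfl
    (fun s hs => hno s hs) hbd).1
  have ht1 := h4 (DC M I) (VC V I) E' F' M' A Q T X R₁ T le_rfl
  have ht2 := h4 (DC M I) (VC V I) E' F' M' A Q T X R₂ T le_rfl
  have hcard := hB.fire.card T
  have hyy : y0 ≤ y1 ∧ c ≤ 2 := by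
    rcases hB.start with ⟨a, -, -, b⟩ | ⟨a, -, -, -, b, -⟩ <;> constructor <;> omega
  have hφ1 := hS.Φ1 0 (Nat.zero_le _) (by rw [htp]; omega)
  have hφ2 := hS.Φ2 0 (Nat.zero_le _) (by rw [hbt]; omega)
  rw [htp] at hφ1
  rw [hbt] at hφ2
  have hyy2 : y1 ≤ y0 + 1 := by
    rcases hB.start with ⟨a, -⟩ | ⟨a, -⟩ <;> omega
  omega

end Pool.Agent.Helper61.UB
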