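import Pool.Agent.Helper74.UB.Goals2

/-!
# UB-K2: two half burning darts for each event
-/

namespace Pool.Agent.Helper61.UB

open Finset Equiv Helper28.VF Pool.Agent.Helper74.UB
open scoped Classical

/-- The case `t = s`. -/
theorem k2_base (hP1 : StmtP1) {D V E F : Type} [Fintype D] [Fintype V] [Fintype E] [Fintype F]
    {M : PM D V E F} {c : ℕ} {v₀ : V} {A Q : ℕ → Finset V} (hF : Fire M c v₀ A Q)
    {T : ℕ} {X : Finset V} (hX : Col M Q T X) (R₁ R₂ : Route M A Q X T) (s : ℕ)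
    (hs : s < T) (hH : ¬ Harm R₁ R₂ s) (O : Finset V) (hO : IsComp M (Q s) O) :
    2 * ((if R₁.p s 0 ∈ O then 1 else 0) + (if R₂.p s 0 ∈ O then 1 else 0)) ≤ hf M O (A s) := by
  by_cases h1 : R₁.p s 0 ∈ O
  · by_cases h2 : R₂.p s 0 ∈ O
    · rw [if_pos h1, if_pos h2]
      by_contra hcon
      exact hH ⟨O, hO, h1, h2, by omega⟩
    · rw [if_pos h1, if_neg h2]
      have h := hP1 D V E F M c v₀ A Q hF T X hX R₁ R₂ s O hs hO h1 h2
      omega
  · by_cases h2 : R₂.p s 0 ∈ O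
    · rw [if_neg h1, if_pos h2]
      have h := hP1 D V E F M c v₀ A Q hF T X hX R₂ R₁ s O hs hO h2 h1
      omega
    · rw [if_neg h1, if_neg h2]
      omega

theorem monoQ_le {D V E F : Type} [Fintype D] [Fintype V] [Fintype E] [Fintype F]
    {M : PM D V E F} {c : ℕ} {v₀ : V} {A Q : ℕ → Finset V} (hF : Fire M c v₀ A Q)
    {s t : ℕ} (h : s ≤ t) : Q s ⊆ Q t :=
  monotone_nat_of_le_succ (f := Q) (fun n => hF.monoQ n) h

theorem k2 (hPart : StmtPart) (hHer : StmtHer) (hEvt : StmtEvt) (hP1 : StmtP1) : StmtK2 := by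
  intro D V E F _ _ _ _ M c v₀ A Q hF T X hX R₁ R₂ s t O hs hst htT hH hO
  obtain ⟨hp1, hp2, -, -⟩ := hPart D V E F M
  have base := fun (O' : Finset V) (h : IsComp M (Q s) O') =>
    k2_base hP1 hF hX R₁ R₂ s hs hH O' h
  have key : ∀ R : Route M A Q X T, R.p s 0 ∈ O →
      ∃ O', IsComp M (Q s) O' ∧ R.p s 0 ∈ O' ∧ O' ⊆ O := by
    intro R hR
    have h := (hEvt D V E F M c v₀ A Q hF T X hX R s t hs hst htT (hO.sub hR)).1
    obtain ⟨O', hO', hm⟩ := hp1 (Q s) (R.p s 0) h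
    refine ⟨O', hO', hm, hp2 (Q s) (Q t) O' O (monoQ_le hF hst) hO' hO ?_⟩
    intro hd
    exact Finset.disjoint_left.1 hd hm hR
  by_cases h1 : R₁.p s 0 ∈ O
  · obtain ⟨O₁, hO₁, hm1, hs1⟩ := key R₁ h1
    have b1 := base O₁ hO₁
    rw [if_pos hm1] at b1
    by_cases h2 : R₂.p s 0 ∈ O
    · obtain ⟨O₂, hO₂, hm2, hs2⟩ := key R₂ h2
      have b2 := base O₂ hO₂
      rw [if_pos hm2] at b2
      have hh := hHer D V E F M c v₀ A Q hF s t O O₁ O₂ hst hO hO₁ hO₂ hs1 hs2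
      rw [if_pos h1, if_pos h2]
      by_cases he : O₁ = O₂
      · rw [← he] at hm2
        rw [if_pos hm2] at b1
        have := hh.1
        omega
      · have := hh.2 he
        omega
    · rw [if_pos h1, if_neg h2]
      have hh := hHer D V E F M c v₀ A Q hF s t O O₁ O₁ hst hO hO₁ hO₁ hs1 hs1
      have := hh.1
      omega
  · by_cases h2 : R₂.p s 0 ∈ O
    · obtain ⟨O₂, hO₂, hm2, hs2⟩ := key R₂ h2
      have b2 := base O₂ hO₂
      rw [if_pos hm2] at b2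
      rw [if_neg h1, if_pos h2]
      have hh := hHer D V E F M c v₀ A Q hF s t O O₂ O₂ hst hO hO₂ hO₂ hs2 hs2
      have := hh.1
      omega
    · rw [if_neg h1, if_neg h2]
      omega

end Pool.Agent.Helper61.UB
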