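import Pool.Agent.Helper74.UB.Goals2

/-!
# UB-TAIL: the tails of two walks are connected
-/

namespace Pool.Agent.Helper61.UB

open Finset Equiv Helper28.VF Pool.Agent.Helper74.UB
open scoped Classical

theorem ad_symm {D V E F : Type} [Fintype D] [Fintype V] [Fintype E] [Fintype F]
    {M : PM D V E F} {u v : V} (h : Ad M u v) : Ad M v u := by
  obtain ⟨d, h1, h2⟩ := h
  refine ⟨M.α d, h2, ?_⟩
  unfold tg
  rw [M.α_inv]
  exact h1

theorem tail : StmtTail := by
  intro D V E F _ _ _ _ M A Q T X hX R₁ R₂ s t O hs ht hO i hi j hj h1 h2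
  have hXO : ∀ x ∈ X, x ∉ O := by
    intro x hx hxO
    exact Finset.disjoint_left.1 (hX.disj t ht) (hO hxO) hx
  have f1 : ∀ k, i + k ≤ R₁.n s → Rch M O (R₁.p s i) (R₁.p s (i + k)) := by
    intro k
    induction k with
    | zero => intro _; exact Relation.ReflTransGen.refl
    | succ k ih =>
      intro hk
      refine Relation.ReflTransGen.tail (ih (by omega)) ⟨?_, ?_⟩
      · exact R₁.walk s hs (i + k) (by omega)
      · exact h1 (i + (k + 1)) (by omega) hk
  have g1 : Rch M O (R₁.p s i) (R₁.p s (R₁.n s)) := by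
    have h := f1 (R₁.n s - i) (by omega)
    have e : i + (R₁.n s - i) = R₁.n s := by omega
    rw [e] at h
    exact h
  have g2 : Rch M O (R₁.p s (R₁.n s)) (R₂.p s (R₂.n s)) := by
    have h := hX.conn _ (R₁.fin s hs) _ (R₂.fin s hs)
    exact h.lift id (fun a b hab => ⟨hab.1, hXO b hab.2⟩)
  have f3 : ∀ k, j + k ≤ R₂.n s → Rch M O (R₂.p s (j + k)) (R₂.p s j) := by
    intro k
    induction k with
    | zero => intro _; exact Relation.ReflTransGen.refl
    | succ k ih =>
      intro hk
      refine Relation.ReflTransGen.head ⟨?_, ?_⟩ (ih (by omega))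
      · exact ad_symm (R₂.walk s hs (j + k) (by omega))
      · exact h2 (j + k) (by omega) (by omega)
  have g3 : Rch M O (R₂.p s (R₂.n s)) (R₂.p s j) := by
    have h := f3 (R₂.n s - j) (by omega)
    have e : j + (R₂.n s - j) = R₂.n s := by omega
    rw [e] at h
    exact h
  exact (g1.trans g2).trans g3

end Pool.Agent.Helper61.UB
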